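import Pool.Agent.Work.MP_429976_an.M5
import Pool.Agent.Work.MP_429976_an.Final

/-!
# Repelling periodic points of positively expansive local diffeomorphisms

Every positively expansive `C¹` local diffeomorphism of a compact connected manifold (without
boundary) has a repelling periodic point.
-/

open Manifold

namespace Pool.Agent.Results.MP_429976_an.RepellingPeriodic

open Pool.Agent.Work.MP_429976_an

/-- Let `M` be a compact connected `C¹` manifold (in particular: a smooth one) without boundary,
modelled on a finite-dimensional real normed space `E` (for instance `ℝⁿ`), with any metric
inducing its topology (for instance a Riemannian distance), and let `f : M → M` be a `C¹` local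
diffeomorphism which is positively expansive. Then `f` has a repelling periodic point. -/
theorem result {E : Type*} [NormedAddCommGroup E] [NormedSpace ℝ E] [FiniteDimensional ℝ E]
    {M : Type*} [MetricSpace M] [CompactSpace M] [ConnectedSpace M] [ChartedSpace E M]
    [IsManifold 𝓘(ℝ, E) 1 M] (f : M → M) (hf : IsC1LocalDiffeo E f)
    (hexp : PositivelyExpansive f) :
    ∃ p : M, IsRepellingPeriodicPoint E f p :=
  main_of_contracting (fun _ _ hS => exists_contracting hS) hf.1 hf.2 hexp

end Pool.Agent.Results.MP_429976_an.RepellingPeriodic
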